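import Pool.Agent.Helper82.RD.Defs

/-!
# Project RD (MP_86d903_lc): module DEG, degree count
-/

set_option autoImplicit false

open Finset MP86d903

namespace Pool.Agent.Helper82.RD

variable {ι V : Type} [DecidableEq ι] [Fintype ι] [Fintype V] [DecidableEq V]
  {vs ng : ι → Finset V} {q : ℕ}

omit [DecidableEq ι] in
/-- DEG: double counting -/
theorem mDEG (h3 : ∀ c, (vs c).card = 3) (D : ℕ) :
    (D + 1) * (univ.filter (fun x : V => D < (univ.filter (fun c => x ∈ vs c)).card)).card ≤
      3 * Fintype.card ι := by
  have h1 : ∑ x : V, (univ.filter (fun c : ι => x ∈ vs c)).card = 3 * Fintype.card ι := by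
    simp_rw [card_filter]
    rw [sum_comm]
    have h2 : ∀ c : ι, ∑ x : V, (if x ∈ vs c then 1 else 0) = 3 := by
      intro c
      rw [← card_filter, ← h3 c]
      congr 1
      ext x
      simp
    rw [sum_congr rfl fun c _ => h2 c, sum_const, card_univ, smul_eq_mul, mul_comm]
  rw [← h1, mul_comm, ← smul_eq_mul, ← sum_const]
  refine (sum_le_sum fun x hx => ?_).trans (sum_le_sum_of_subset (filter_subset _ _))
  exact (mem_filter.1 hx).2

end Pool.Agent.Helper82.RD
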